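import Mathlib

set_option autoImplicit false
open Matrix Complex
open scoped ComplexOrder Kronecker

namespace Pool.Agent.Results.MP_709dca_mp.Triple

/-- Density operators. -/
def IsState {ι : Type} [Fintype ι] (ρ : Matrix ι ι ℂ) : Prop := ρ.PosSemidef ∧ ρ.trace = 1

/-- Separable states: the convex hull of the product states. -/
def Sep (ι : Type) [Fintype ι] : Set (Matrix (ι × ι) (ι × ι) ℂ) :=
  convexHull ℝ {σ | ∃ α β : Matrix ι ι ℂ, IsState α ∧ IsState β ∧ σ = α ⊗ₖ β}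

/-- Entanglement witnesses. -/
def EW {ι : Type} [Fintype ι] (W : Matrix (ι × ι) (ι × ι) ℂ) : Prop :=
  W.IsHermitian ∧ (∀ σ ∈ Sep ι, 0 ≤ (W * σ).trace.re) ∧
    ∃ ρ : Matrix (ι × ι) (ι × ι) ℂ, IsState ρ ∧ (W * ρ).trace.re < 0

/-- Optimal entanglement witnesses. -/
def Optimal {ι : Type} [Fintype ι] (W : Matrix (ι × ι) (ι × ι) ℂ) : Prop :=
  EW W ∧ ¬ ∃ (ε : ℝ) (P : Matrix (ι × ι) (ι × ι) ℂ),
    0 < ε ∧ P.PosSemidef ∧ P ≠ 0 ∧ EW (W - (ε : ℂ) • P)

section gen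

lemma normalize {ι : Type} [Fintype ι] [DecidableEq ι] {ρ : Matrix ι ι ℂ} (h : ρ.PosSemidef)
    (h0 : ρ ≠ 0) : ∃ r : ℝ, 0 < r ∧ IsState ((r : ℂ) • ρ) := by
  have t0 := Complex.le_def.1 h.trace_nonneg
  have e : ρ.trace = (ρ.trace.re : ℂ) := Complex.ext rfl (by simpa using t0.2.symm)
  have hp : 0 < ρ.trace.re := by
    refine lt_of_le_of_ne (by simpa using t0.1) fun hz => h0 (h.trace_eq_zero_iff.1 ?_)
    rw [e, ← hz]; simp
  refine ⟨(ρ.trace.re)⁻¹, inv_pos.2 hp, h.smul (Complex.zero_le_real.2 (inv_pos.2 hp).le), ?_⟩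
  rw [trace_smul, smul_eq_mul]
  nth_rewrite 2 [e]
  rw [← ofReal_mul, inv_mul_cancel₀ hp.ne', ofReal_one]

lemma ew_psd {ι : Type} [Fintype ι] [DecidableEq ι] {W : Matrix (ι × ι) (ι × ι) ℂ} (h : EW W)
    {α β : Matrix ι ι ℂ} (ha : α.PosSemidef) (hb : β.PosSemidef) :
    0 ≤ (W * α ⊗ₖ β).trace.re := by
  by_cases a0 : α = 0
  · simp [a0]
  by_cases b0 : β = 0
  · simp [b0]
  obtain ⟨r, hr, h1⟩ := normalize ha a0
  obtain ⟨s, hs, h2⟩ := normalize hb b0
  have := h.2.1 _ (subset_convexHull ℝ _ ⟨_, _, h1, h2, rfl⟩)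
  rw [smul_kronecker, kronecker_smul, Matrix.mul_smul, Matrix.mul_smul, trace_smul, trace_smul,
    smul_eq_mul, smul_eq_mul, re_ofReal_mul, re_ofReal_mul] at this
  exact nonneg_of_mul_nonneg_right (nonneg_of_mul_nonneg_right this hr) hs

variable {m κ : Type} [Fintype m] [Fintype κ] [DecidableEq κ]

def pt (Q : Matrix (m × κ) (m × κ) ℂ) : Matrix m m ℂ := Matrix.of fun i j => ∑ a, Q (i, a) (j, a)

lemma tr_pt (A : Matrix m m ℂ) (Q : Matrix (m × κ) (m × κ) ℂ) :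
    (A ⊗ₖ (1 : Matrix κ κ ℂ) * Q).trace = (A * pt Q).trace := by
  simp only [trace, diag, mul_apply, Fintype.sum_prod_type, kroneckerMap_apply, one_apply, pt,
    of_apply, Finset.mul_sum, mul_ite, mul_one, mul_zero, ite_mul, zero_mul, Finset.sum_ite_eq,
    Finset.mem_univ, if_true]
  exact Finset.sum_congr rfl fun i _ => Finset.sum_comm

omit [DecidableEq κ] in
lemma pt_psd {Q : Matrix (m × κ) (m × κ) ℂ} (h : Q.PosSemidef) : (pt Q).PosSemidef := by
  have e : pt Q = ∑ a : κ, Q.submatrix (fun i => (i, a)) (fun i => (i, a)) := by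
    ext i j; simp [pt, Matrix.sum_apply]
  rw [e]
  exact posSemidef_sum _ fun a _ => h.submatrix _

omit [DecidableEq κ] in
lemma pt_tr (Q : Matrix (m × κ) (m × κ) ℂ) : (pt Q).trace = Q.trace := by
  simp [pt, trace, Fintype.sum_prod_type]

variable {ι : Type} [Fintype ι] [DecidableEq ι] [DecidableEq m] (e : ι ≃ m × κ)

def g2 : ι × ι ≃ (m × m) × (κ × κ) := (e.prodCongr e).trans (Equiv.prodProdProdComm m κ m κ)

noncomputable def L (A : Matrix (m × m) (m × m) ℂ) : Matrix (ι × ι) (ι × ι) ℂ :=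
  (A ⊗ₖ (1 : Matrix (κ × κ) (κ × κ) ℂ)).submatrix (g2 e) (g2 e)

def ptr (P : Matrix (ι × ι) (ι × ι) ℂ) : Matrix (m × m) (m × m) ℂ :=
  pt (P.submatrix (g2 e).symm (g2 e).symm)

omit [DecidableEq ι] [DecidableEq m] in
lemma tr_sub {x y : Type} [Fintype x] [Fintype y] (f : x ≃ y) (A : Matrix y y ℂ) :
    (A.submatrix f f).trace = A.trace := by
  simp only [trace, diag, submatrix_apply]
  exact Equiv.sum_comp f fun i => A i i

omit [DecidableEq ι] [DecidableEq m] in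
lemma tr_L (A : Matrix (m × m) (m × m) ℂ) (P : Matrix (ι × ι) (ι × ι) ℂ) :
    (L e A * P).trace = (A * ptr e P).trace := by
  have : P = (P.submatrix (g2 e).symm (g2 e).symm).submatrix (g2 e) (g2 e) := by simp
  rw [ptr, ← tr_pt]
  nth_rewrite 1 [this]
  rw [L, submatrix_mul_equiv, tr_sub]

omit [DecidableEq ι] [DecidableEq m] [Fintype ι] [Fintype m] [DecidableEq κ] in
lemma ptr_kron (α β : Matrix ι ι ℂ) : ptr e (α ⊗ₖ β) =
    pt (α.submatrix e.symm e.symm) ⊗ₖ pt (β.submatrix e.symm e.symm) := by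
  ext ⟨i, j⟩ ⟨k, l⟩
  simp [ptr, pt, g2, Fintype.sum_prod_type, Finset.sum_mul_sum]

omit [DecidableEq ι] [DecidableEq m] [Fintype ι] [Fintype m] [Fintype κ] in
lemma L_kron (α β : Matrix m m ℂ) : L e (α ⊗ₖ β) =
    (α ⊗ₖ (1 : Matrix κ κ ℂ)).submatrix e e ⊗ₖ (β ⊗ₖ (1 : Matrix κ κ ℂ)).submatrix e e := by
  ext ⟨i, j⟩ ⟨k, l⟩
  by_cases h1 : (e i).2 = (e k).2 <;> by_cases h2 : (e j).2 = (e l).2 <;>
    simp [L, g2, one_apply, h1, h2]

omit [DecidableEq ι] [DecidableEq m] in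
lemma L_mul (A B : Matrix (m × m) (m × m) ℂ) :
    (L e A * L e B).trace = (Fintype.card (κ × κ) : ℂ) * (A * B).trace := by
  rw [L, L, submatrix_mul_equiv, tr_sub, ← mul_kronecker_mul, trace_kronecker, Matrix.mul_one,
    trace_one, mul_comm]

lemma lift [Nonempty κ] (W : Matrix (m × m) (m × m) ℂ) (h1 : W.IsHermitian)
    (h2 : ∀ α β : Matrix m m ℂ, IsState α → IsState β → 0 ≤ (W * α ⊗ₖ β).trace.re)
    (h3 : ∃ ρ : Matrix (m × m) (m × m) ℂ, ρ.PosSemidef ∧ (W * ρ).trace.re < 0)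
    (h4 : ∀ P : Matrix (m × m) (m × m) ℂ, P.PosSemidef →
      (∀ α β : Matrix m m ℂ, α.PosSemidef → β.PosSemidef → (W * α ⊗ₖ β).trace = 0 →
        (P * α ⊗ₖ β).trace.re ≤ 0) → P = 0) : Optimal (L e W) := by
  refine ⟨⟨?_, ?_, ?_⟩, ?_⟩
  · refine IsHermitian.submatrix ?_ _
    rw [IsHermitian, conjTranspose_kronecker, h1.eq, conjTranspose_one]
  · intro σ hσ
    refine convexHull_min (t := {σ | 0 ≤ (L e W * σ).trace.re}) ?_ ?_ hσ
    · rintro _ ⟨α, β, ha, hb, rfl⟩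
      show 0 ≤ (L e W * α ⊗ₖ β).trace.re
      rw [tr_L, ptr_kron]
      exact h2 _ _ ⟨pt_psd (ha.1.submatrix _), by rw [pt_tr, tr_sub, ha.2]⟩
        ⟨pt_psd (hb.1.submatrix _), by rw [pt_tr, tr_sub, hb.2]⟩
    · intro x hx y hy p q hp hq _
      have e' : (L e W * (p • x + q • y)).trace.re =
          p * (L e W * x).trace.re + q * (L e W * y).trace.re := by
        simp [mul_add, trace_add]
      show 0 ≤ (L e W * (p • x + q • y)).trace.re
      rw [e']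
      exact add_nonneg (mul_nonneg hp hx) (mul_nonneg hq hy)
  · obtain ⟨ρ, hρ, hn⟩ := h3
    have hp : (L e ρ).PosSemidef := (hρ.kronecker PosSemidef.one).submatrix _
    have hc : (0 : ℝ) < Fintype.card (κ × κ) := by exact_mod_cast Fintype.card_pos
    have hneg : (L e W * L e ρ).trace.re < 0 := by
      rw [L_mul, ← ofReal_natCast, re_ofReal_mul]; exact mul_neg_of_pos_of_neg hc hn
    obtain ⟨r, hr, hs⟩ := normalize hp (by intro h; rw [h] at hneg; simp at hneg)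
    refine ⟨_, hs, ?_⟩
    rw [Matrix.mul_smul, trace_smul, smul_eq_mul, re_ofReal_mul]
    exact mul_neg_of_pos_of_neg hr hneg
  · rintro ⟨ε, P, hε, hP, hne, hE⟩
    have z := h4 (ptr e P) (pt_psd (hP.submatrix _)) fun α β ha hb hz => by
      have := ew_psd hE ((ha.kronecker (PosSemidef.one (n := κ))).submatrix e)
        ((hb.kronecker (PosSemidef.one (n := κ))).submatrix e)
      rw [← L_kron, sub_mul, trace_sub, L_mul, hz, mul_zero, zero_sub, neg_re, Matrix.smul_mul,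
        trace_smul, smul_eq_mul, re_ofReal_mul, trace_mul_comm, tr_L, trace_mul_comm] at this
      by_contra hc
      have := mul_pos hε (not_le.1 hc)
      linarith
    apply hne
    rw [← hP.trace_eq_zero_iff, ← tr_sub (g2 e).symm, ← pt_tr]
    show (ptr e P).trace = 0
    rw [z, trace_zero]

end gen

def O : Matrix (Fin 3) (Fin 3) ℂ := !![11, 26, -37; -37, 11, 26; 26, -37, 11]
noncomputable def c : Matrix (Fin 3) (Fin 3) ℂ :=
  !![0, 57 * I, -57 * I; -57 * I, 0, 57 * I; 57 * I, -57 * I, 0]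

noncomputable def C : Matrix (Fin 3 × Fin 3) (Fin 3 × Fin 3) ℂ := Matrix.of fun p q =>
  if p = q then O p.1 p.2 else if p.1 = p.2 ∧ q.1 = q.2 then c p.1 q.1 else 0

noncomputable def W (t : ℝ) : Matrix (Fin 3 × Fin 3) (Fin 3 × Fin 3) ℂ :=
  (38 : ℂ) • (1 : Matrix (Fin 3 × Fin 3) (Fin 3 × Fin 3) ℂ) - (t : ℂ) • C

lemma hC : Cᴴ = C := by
  ext ⟨i, j⟩ ⟨k, l⟩
  fin_cases i <;> fin_cases j <;> fin_cases k <;> fin_cases l <;>
    simp [C, O, c, conjTranspose_apply, map_ofNat]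

lemma W_herm (t : ℝ) : (W t).IsHermitian := by
  simp [IsHermitian, W, conjTranspose_sub, conjTranspose_smul, hC]

lemma W_tr (t : ℝ) (σ : Matrix (Fin 3 × Fin 3) (Fin 3 × Fin 3) ℂ) :
    (W t * σ).trace = 38 * σ.trace - t * (C * σ).trace := by
  simp [W, sub_mul, trace_sub]

lemma C_tr (σ : Matrix (Fin 3 × Fin 3) (Fin 3 × Fin 3) ℂ) : (C * σ).trace =
    11 * (σ (0, 0) (0, 0) + σ (1, 1) (1, 1) + σ (2, 2) (2, 2)) +
    26 * (σ (0, 1) (0, 1) + σ (1, 2) (1, 2) + σ (2, 0) (2, 0)) -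
    37 * (σ (1, 0) (1, 0) + σ (2, 1) (2, 1) + σ (0, 2) (0, 2)) +
    57 * I * (σ (1, 1) (0, 0) + σ (2, 2) (1, 1) + σ (0, 0) (2, 2) -
      σ (0, 0) (1, 1) - σ (1, 1) (2, 2) - σ (2, 2) (0, 0)) := by
  simp [C, O, c, trace, mul_apply, Fintype.sum_prod_type, Fin.sum_univ_three]
  ring

lemma minor {α : Matrix (Fin 3) (Fin 3) ℂ} (h : α.PosSemidef) (i j : Fin 3) :
    (α i j).re ^ 2 + (α i j).im ^ 2 ≤ (α i i).re * (α j j).re := by
  have h10 : α j i = star (α i j) := (h.isHermitian.apply j i).symm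
  have i0 := (Complex.le_def.1 (h.diag_nonneg (i := i))).2
  have hd := (Complex.le_def.1 (h.submatrix ![i, j]).det_nonneg).1
  rw [det_fin_two] at hd
  simp [h10] at hd i0
  rw [← i0] at hd
  nlinarith

lemma W_prod (t : ℝ) (ht : t = 1 ∨ t = -1) (α β : Matrix (Fin 3) (Fin 3) ℂ) (ha : IsState α)
    (hb : IsState β) : 0 ≤ (W t * α ⊗ₖ β).trace.re := by
  rw [W_tr, C_tr, trace_kronecker, ha.2, hb.2]
  have a1 := congrArg re ha.2
  have b1 := congrArg re hb.2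
  have ai := fun i => (Complex.le_def.1 (ha.1.diag_nonneg (i := i))).2
  have bi := fun i => (Complex.le_def.1 (hb.1.diag_nonneg (i := i))).2
  have a01 : α 0 1 = star (α 1 0) := (ha.1.isHermitian.apply 0 1).symm
  have a12 : α 1 2 = star (α 2 1) := (ha.1.isHermitian.apply 1 2).symm
  have a20 : α 2 0 = star (α 0 2) := (ha.1.isHermitian.apply 2 0).symm
  have b01 : β 0 1 = star (β 1 0) := (hb.1.isHermitian.apply 0 1).symm
  have b12 : β 1 2 = star (β 2 1) := (hb.1.isHermitian.apply 1 2).symm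
  have b20 : β 2 0 = star (β 0 2) := (hb.1.isHermitian.apply 2 0).symm
  have m1 := minor ha.1 1 0
  have m2 := minor ha.1 2 1
  have m3 := minor ha.1 0 2
  have n1 := minor hb.1 1 0
  have n2 := minor hb.1 2 1
  have n3 := minor hb.1 0 2
  simp only [zero_im] at ai bi
  simp [trace_fin_three] at a1 b1
  simp [a01, a12, a20, b01, b12, b20, ← ai, ← bi]
  have ea : (α 2 2).re = 1 - (α 0 0).re - (α 1 1).re := by linarith
  have eb : (β 2 2).re = 1 - (β 0 0).re - (β 1 1).re := by linarith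
  rw [ea] at m2 m3 ⊢
  rw [eb] at n2 n3 ⊢
  generalize (α 0 0).re = p at *
  generalize (α 1 1).re = q at *
  generalize (β 0 0).re = r at *
  generalize (β 1 1).re = s at *
  have s0 := sq_nonneg (t * (11 * p - 37 * q + 26 * (1 - p - q)) - 57 * (r - 1 / 3))
  have s1 := sq_nonneg (t * (26 * p + 11 * q - 37 * (1 - p - q)) - 57 * (s - 1 / 3))
  have s2 := sq_nonneg (t * (-37 * p + 26 * q + 11 * (1 - p - q)) - 57 * (1 - r - s - 1 / 3))
  have u1 := sq_nonneg (t * (α 1 0).re + (β 1 0).im)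
  have u2 := sq_nonneg (t * (α 1 0).im + (β 1 0).re)
  have u3 := sq_nonneg (t * (α 2 1).re + (β 2 1).im)
  have u4 := sq_nonneg (t * (α 2 1).im + (β 2 1).re)
  have u5 := sq_nonneg (t * (α 0 2).re + (β 0 2).im)
  have u6 := sq_nonneg (t * (α 0 2).im + (β 0 2).re)
  rcases ht with rfl | rfl <;> linarith

def op {ι : Type} (v : ι → ℂ) : Matrix ι ι ℂ := vecMulVec v (star v)

lemma op_psd {ι : Type} [Fintype ι] (v : ι → ℂ) : (op v).PosSemidef :=
  posSemidef_vecMulVec_self_star v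

lemma tr_op {ι : Type} [Fintype ι] (M : Matrix ι ι ℂ) (v : ι → ℂ) :
    (M * op v).trace = star v ⬝ᵥ M *ᵥ v := by
  simp only [op, trace, diag, mul_apply, vecMulVec_apply, dotProduct, mulVec, Finset.mul_sum]
  refine Finset.sum_congr rfl fun i _ => Finset.sum_congr rfl fun j _ => by ring

lemma op_kron (x y : Fin 3 → ℂ) : op x ⊗ₖ op y = op fun p : Fin 3 × Fin 3 => x p.1 * y p.2 := by
  ext ⟨i, j⟩ ⟨k, l⟩
  simp [op, vecMulVec_apply]; ring

lemma ker {P : Matrix (Fin 3 × Fin 3) (Fin 3 × Fin 3) ℂ} (hP : P.PosSemidef) (x y : Fin 3 → ℂ)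
    (h : (P * op x ⊗ₖ op y).trace.re ≤ 0) (r : Fin 3 × Fin 3) :
    ∑ i, ∑ j, P r (i, j) * (x i * y j) = 0 := by
  rw [op_kron, tr_op] at h
  have h0 := Complex.le_def.1 (hP.dotProduct_mulVec_nonneg fun p : Fin 3 × Fin 3 => x p.1 * y p.2)
  have := (hP.dotProduct_mulVec_zero_iff _).1
    (Complex.ext (le_antisymm h (by simpa using h0.1)) (by simpa using h0.2.symm))
  have := congrFun this r
  simpa [mulVec, dotProduct, Fintype.sum_prod_type] using this

lemma zero (t n a b : ℝ) (ht : t ^ 2 = 1)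
    (h : 38 * (n ^ 2 + (a ^ 2 + b ^ 2)) ^ 2 = t * (22 * n ^ 2 * (a ^ 2 + b ^ 2) + 26 * n ^ 4 -
      37 * (a ^ 2 + b ^ 2) ^ 2) + 114 * n ^ 2 * (a ^ 2 + b ^ 2)) :
    (W t * op ![(n : ℂ), a + b * I, 0] ⊗ₖ op ![t * I * (a + b * I), (n : ℂ), 0]).trace = 0 ∧
    (W t * op ![0, (n : ℂ), a + b * I] ⊗ₖ op ![0, t * I * (a + b * I), (n : ℂ)]).trace = 0 ∧
    (W t * op ![a + b * I, 0, (n : ℂ)] ⊗ₖ op ![(n : ℂ), 0, t * I * (a + b * I)]).trace = 0 := by
  have ht' : t = 1 ∨ t = -1 := by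
    have : (t - 1) * (t + 1) = 0 := by linear_combination ht
    rcases mul_eq_zero.1 this with h | h
    · left; linarith
    · right; linarith
  refine ⟨?_, ?_, ?_⟩ <;>
  · rw [W_tr, C_tr, trace_kronecker]
    rcases ht' with rfl | rfl <;>
    · apply Complex.ext <;> simp [op, trace_fin_three, vecMulVec_apply]
      · linarith
      · ring

lemma solve (n t : ℂ) (G p q r s : ℂ) (hn : n ≠ 0) (ht : t ≠ 0) (hG : G ≠ 0)
    (h : ∀ u : ℂ, u = 1 ∨ u = -1 ∨ u = I →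
      p * (n * (t * I * (u * G))) + q * (n * n) + (r * (u * G * (t * I * (u * G))) + s * (u * G * n)) = 0) :
    q = 0 ∧ r = 0 ∧ s = -(t * I * p) := by
  have h1 := h 1 (by simp)
  have h2 := h (-1) (by simp)
  have h3 := h I (by simp)
  have e3 : (n * G) * (s + t * I * p) = 0 := by linear_combination (1 / 2 : ℂ) * h1 - (1 / 2 : ℂ) * h2
  have e3' : s + t * I * p = 0 := (mul_eq_zero.1 e3).resolve_left (mul_ne_zero hn hG)
  have e1 : (n * n) * q = 0 := by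
    linear_combination (1 / 4 : ℂ) * h1 + (1 / 4 : ℂ) * h2 + (1 / 2 : ℂ) * h3 -
      (1 / 2 : ℂ) * I * e3 - (1 / 2 : ℂ) * r * G * G * t * I * I_mul_I
  have e1' : q = 0 := (mul_eq_zero.1 e1).resolve_left (mul_ne_zero hn hn)
  have e2 : (G * t * I * G) * r = 0 := by
    linear_combination (1 / 2 : ℂ) * h1 + (1 / 2 : ℂ) * h2 - e1
  have e2' : r = 0 := (mul_eq_zero.1 e2).resolve_left
    (mul_ne_zero (mul_ne_zero (mul_ne_zero hG ht) I_ne_zero) hG)
  exact ⟨e1', e2', by linear_combination e3'⟩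

lemma span (t n a b : ℝ) (ht : t ^ 2 = 1) (hn : n ≠ 0) (ha : a ≠ 0)
    (h : 38 * (n ^ 2 + (a ^ 2 + b ^ 2)) ^ 2 = t * (22 * n ^ 2 * (a ^ 2 + b ^ 2) + 26 * n ^ 4 -
      37 * (a ^ 2 + b ^ 2) ^ 2) + 114 * n ^ 2 * (a ^ 2 + b ^ 2))
    (P : Matrix (Fin 3 × Fin 3) (Fin 3 × Fin 3) ℂ) (hP : P.PosSemidef)
    (H : ∀ α β : Matrix (Fin 3) (Fin 3) ℂ, α.PosSemidef → β.PosSemidef →
      (W t * α ⊗ₖ β).trace = 0 → (P * α ⊗ₖ β).trace.re ≤ 0) : P = 0 := by
  have hu : ∀ u : ℂ, u = 1 ∨ u = -1 ∨ u = I → ∃ a' b' : ℝ, a' ^ 2 + b' ^ 2 = a ^ 2 + b ^ 2 ∧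
      (a' : ℂ) + b' * I = u * (a + b * I) := by
    rintro u (rfl | rfl | rfl)
    · exact ⟨a, b, rfl, by simp⟩
    · exact ⟨-a, -b, by ring, by push_cast; ring⟩
    · exact ⟨-b, a, by ring, by push_cast; linear_combination (-(b : ℂ)) * I_mul_I⟩
  have hn' : (n : ℂ) ≠ 0 := by exact_mod_cast hn
  have ht0 : (t : ℂ) ≠ 0 := by
    intro h0
    have : t = 0 := by exact_mod_cast h0
    rw [this] at ht; norm_num at ht
  have ht' : (t : ℂ) ^ 2 = 1 := by exact_mod_cast ht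
  have hG : (a : ℂ) + b * I ≠ 0 := fun h0 => ha (by simpa using congrArg re h0)
  ext r s
  have k0 := solve n t _ (P r (0, 0)) (P r (0, 1)) (P r (1, 0)) (P r (1, 1)) hn' ht0 hG fun u h' => by
    obtain ⟨a', b', e1, e2⟩ := hu u h'
    have := ker hP _ _ (H _ _ (op_psd _) (op_psd _) (zero t n a' b' ht (by rw [e1]; exact h)).1) r
    rw [e2] at this
    simp [Fin.sum_univ_three] at this
    linear_combination this
  have k1 := solve n t _ (P r (1, 1)) (P r (1, 2)) (P r (2, 1)) (P r (2, 2)) hn' ht0 hG fun u h' => by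
    obtain ⟨a', b', e1, e2⟩ := hu u h'
    have := ker hP _ _ (H _ _ (op_psd _) (op_psd _) (zero t n a' b' ht (by rw [e1]; exact h)).2.1) r
    rw [e2] at this
    simp [Fin.sum_univ_three] at this
    linear_combination this
  have k2 := solve n t _ (P r (2, 2)) (P r (2, 0)) (P r (0, 2)) (P r (0, 0)) hn' ht0 hG fun u h' => by
    obtain ⟨a', b', e1, e2⟩ := hu u h'
    have := ker hP _ _ (H _ _ (op_psd _) (op_psd _) (zero t n a' b' ht (by rw [e1]; exact h)).2.2) r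
    rw [e2] at this
    simp [Fin.sum_univ_three] at this
    linear_combination this
  obtain ⟨q0, r0, s0⟩ := k0
  obtain ⟨q1, r1, s1⟩ := k1
  obtain ⟨q2, r2, s2⟩ := k2
  have z2 : P r (2, 2) = -P r (0, 0) := by
    rw [s1, s0]; linear_combination (I * I * P r (0, 0)) * ht' + P r (0, 0) * I_mul_I
  rw [z2] at s2
  have z0 : P r (0, 0) = 0 := by
    linear_combination (1 / 2 : ℂ) * (1 + t * I) * s2 + (1 / 2 : ℂ) * (I * I * P r (0, 0)) * ht' +
      (1 / 2 : ℂ) * P r (0, 0) * I_mul_I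
  have z1 : P r (1, 1) = 0 := by rw [s0, z0]; simp
  have z2' : P r (2, 2) = 0 := by rw [z2, z0]; simp
  obtain ⟨i, j⟩ := s
  fin_cases i <;> fin_cases j <;> assumption

lemma neg (t : ℝ) (ht : t = 1 ∨ t = -1) : ∃ ρ : Matrix (Fin 3 × Fin 3) (Fin 3 × Fin 3) ℂ,
    ρ.PosSemidef ∧ (W t * ρ).trace.re < 0 := by
  refine ⟨op fun p => if p = (0, 0) then 1 else if p = (1, 1) then -(t * I) else 0, op_psd _, ?_⟩
  rw [W_tr, C_tr]
  rcases ht with rfl | rfl <;>
    simp [op, trace, vecMulVec_apply, Fintype.sum_prod_type, Fin.sum_univ_three] <;> norm_num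

theorem result (d : ℕ) (hd : 0 < d) (h3 : 3 ∣ d) :
    ∃ W M : Matrix (Fin d × Fin d) (Fin d × Fin d) ℂ, Optimal W ∧ Optimal M ∧
      ∃ u : ℝ, W + M = (u : ℂ) • (1 : Matrix (Fin d × Fin d) (Fin d × Fin d) ℂ) := by
  obtain ⟨k, rfl⟩ := h3
  haveI : Nonempty (Fin k) := ⟨⟨0, by omega⟩⟩
  refine ⟨L finProdFinEquiv.symm (W 1), L finProdFinEquiv.symm (W (-1)),
    lift _ _ (W_herm _) (W_prod _ (Or.inl rfl)) (neg _ (Or.inl rfl))
      (span 1 5 3 1 (by norm_num) (by norm_num) (by norm_num) (by norm_num)),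
    lift _ _ (W_herm _) (W_prod _ (Or.inr rfl)) (neg _ (Or.inr rfl))
      (span (-1) 1 2 2 (by norm_num) (by norm_num) (by norm_num) (by norm_num)), 76, ?_⟩
  have e : W 1 + W (-1) = ((76 : ℝ) : ℂ) • (1 : Matrix (Fin 3 × Fin 3) (Fin 3 × Fin 3) ℂ) := by
    simp only [W]; push_cast; module
  have e2 := congrArg (L (finProdFinEquiv (m := 3) (n := k)).symm) e
  simp only [L, add_kronecker, smul_kronecker, one_kronecker_one, submatrix_add, submatrix_smul,
    Pi.add_apply, Pi.smul_apply, submatrix_one_equiv] at e2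
  exact e2

end Pool.Agent.Results.MP_709dca_mp.Triple
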